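import Pool.Agent.BEW.StmtsS

set_option autoImplicit false

/-! Row PKG of squad BEW (MP_be01ff_an): the gap condition, uniformly for thin shells. -/

namespace Pool.Agent.BEW.H62

open Set Filter Topology MeasureTheory
open scoped InnerProductSpace ENNReal NNReal
open Pool.Agent.BE01 Pool.Agent.BEL Pool.Agent.BEG Pool.Agent.BEH Pool.Agent.BER Pool.Agent.BEW

noncomputable section

/-- The sine functions. -/
def ss (k : ℕ) (x : ℝ) : ℝ := Real.sqrt (2 / Real.pi) * Real.sin (((k : ℝ) + 1) * x)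

theorem sq_le : Real.sqrt (2 / Real.pi) ≤ 1 := by
  rw [Real.sqrt_le_one, div_le_one Real.pi_pos]
  linarith [Real.pi_gt_three]

theorem sq_pos : 0 < Real.sqrt (2 / Real.pi) := Real.sqrt_pos.2 (by positivity)

theorem ss_abs (k : ℕ) (x : ℝ) : |ss k x| ≤ 1 := by
  unfold ss
  rw [abs_mul, abs_of_pos sq_pos]
  have h := Real.abs_sin_le_one (((k : ℝ) + 1) * x)
  have h2 := sq_le
  calc _ ≤ (1 : ℝ) * 1 := mul_le_mul h2 h (abs_nonneg _) (by norm_num)
    _ = 1 := by norm_num

theorem ss_cont (k : ℕ) : Continuous (ss k) := by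
  unfold ss
  fun_prop

/-- The limit integrals. -/
def PP (al : ℝ) (k : ℕ) : ℝ := ∫ x in (0 : ℝ)..Real.pi, |ss 0 x| ^ al * ss k x ^ 2

theorem PP_eq (al : ℝ) (k : ℕ) : PP al k = (Real.sqrt (2 / Real.pi) ^ al * (2 / Real.pi)) *
    ∫ x in (0 : ℝ)..Real.pi, |Real.sin x| ^ al * Real.sin (((k : ℝ) + 1) * x) ^ 2 := by
  unfold PP
  rw [← intervalIntegral.integral_const_mul]
  refine intervalIntegral.integral_congr fun x _ => ?_
  show |ss 0 x| ^ al * ss k x ^ 2 = _
  unfold ss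
  rw [abs_mul, abs_of_pos sq_pos, Real.mul_rpow sq_pos.le (abs_nonneg _), mul_pow,
    Real.sq_sqrt (by positivity)]
  simp only [Nat.cast_zero, zero_add, one_mul]
  ring

theorem PP_zero {al : ℝ} (hal : 0 < al) : PP al 0 = (Real.sqrt (2 / Real.pi) ^ al *
    (2 / Real.pi)) * ∫ x in (0 : ℝ)..Real.pi, |Real.sin x| ^ (al + 2) := by
  rw [PP_eq]
  congr 1
  refine intervalIntegral.integral_congr fun x _ => ?_
  show |Real.sin x| ^ al * Real.sin (((0 : ℕ) + 1 : ℝ) * x) ^ 2 = _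
  simp only [Nat.cast_zero, zero_add, one_mul]
  rw [Real.rpow_add_of_nonneg (abs_nonneg _) hal.le (by norm_num), ← sq_abs]
  norm_num

theorem PP_pos {al : ℝ} (hal : 0 < al) : 0 < PP al 0 := by
  rw [PP_zero hal]
  refine mul_pos (mul_pos (Real.rpow_pos_of_pos sq_pos _) (by positivity)) ?_
  refine intervalIntegral.intervalIntegral_pos_of_pos_on ?_ ?_ Real.pi_pos
  · refine Continuous.intervalIntegrable ?_ _ _
    exact (Real.continuous_sin.abs).rpow_const fun x => Or.inr (by linarith)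
  · intro x hx
    refine Real.rpow_pos_of_pos (abs_pos.2 ?_) _
    exact (Real.sin_pos_of_pos_of_lt_pi hx.1 hx.2).ne'

/-- The integrand. -/
def Ph (al : ℝ) (p : ℝ × ℝ × ℝ) : ℝ := |p.1| ^ al * p.2.1 ^ 2 * p.2.2

theorem Ph_cont {al : ℝ} (hal : 0 < al) : Continuous (Ph al) := by
  unfold Ph
  refine ((continuous_fst.abs.rpow_const fun x => Or.inr hal.le).mul ?_).mul ?_
  · exact (continuous_fst.comp continuous_snd).pow 2
  · exact continuous_snd.comp continuous_snd

theorem PP_shift (al β : ℝ) (k : ℕ) :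
    ∫ r in Ioo β (β + Real.pi), Ph al (ss 0 (r - β), ss k (r - β), 1) = PP al k := by
  rw [← integral_Ioc_eq_integral_Ioo, ← intervalIntegral.integral_of_le
    (by linarith [Real.pi_pos])]
  rw [intervalIntegral.integral_comp_sub_right (fun x => Ph al (ss 0 x, ss k x, 1)) β]
  rw [sub_self, add_sub_cancel_left]
  unfold PP Ph
  refine intervalIntegral.integral_congr fun x _ => ?_
  simp only [mul_one]

theorem close {al : ℝ} (hal : 0 < al) (d : ℕ) (hd1 : 1 ≤ d) {θ : ℝ} (hθ : 0 < θ) :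
    ∃ ε1 β1 : ℝ, 0 < ε1 ∧ ε1 ≤ 1 ∧ 1 ≤ β1 ∧ ∀ (β : ℝ) (bb : ℕ → ℝ → ℝ), β1 ≤ β →
      (∀ k, Measurable (bb k)) →
      (∀ k, ∀ r ∈ Ioo β (β + Real.pi), |bb k r - sg d β k r| ≤ ε1) → ∀ k,
        |(∫ r in Ioo β (β + Real.pi), Ph al (bb 0 r, bb k r, (r / β) ^ (d - 1))) - PP al k| ≤
          θ := by
  have hpi := Real.pi_pos
  have hd : (1 : ℝ) ≤ d := by exact_mod_cast hd1
  set K : Set (ℝ × ℝ × ℝ) := Icc (-2) 2 ×ˢ Icc (-2) 2 ×ˢ Icc 0 2 with hK
  have hKc : IsCompact K := isCompact_Icc.prod (isCompact_Icc.prod isCompact_Icc)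
  have huc := Metric.uniformContinuousOn_iff.1
    (hKc.uniformContinuousOn_of_continuous (Ph_cont hal).continuousOn) (θ / Real.pi)
    (by positivity)
  obtain ⟨δ, hδ, huc⟩ := huc
  obtain ⟨C, hC⟩ := hKc.exists_bound_of_continuousOn (Ph_cont hal).continuousOn
  have hc1 : ContinuousAt (fun ρ : ℝ => ρ ^ (-(((d : ℝ) - 1) / 2))) 1 :=
    Real.continuousAt_rpow_const 1 _ (Or.inl one_ne_zero)
  have hc2 : ContinuousAt (fun ρ : ℝ => ρ ^ (d - 1)) 1 := (continuous_pow _).continuousAt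
  have e1 : ∀ᶠ ρ in 𝓝 (1 : ℝ), |ρ ^ (-(((d : ℝ) - 1) / 2)) - 1| < δ / 4 := by
    have h := Metric.continuousAt_iff'.1 hc1 (δ / 4) (by positivity)
    filter_upwards [h] with ρ hρ
    rw [Real.one_rpow, Real.dist_eq] at hρ
    exact hρ
  have e2 : ∀ᶠ ρ in 𝓝 (1 : ℝ), |ρ ^ (d - 1) - 1| < min δ 1 := by
    have h := Metric.continuousAt_iff'.1 hc2 (min δ 1) (lt_min hδ one_pos)
    filter_upwards [h] with ρ hρ
    rw [one_pow, Real.dist_eq] at hρ
    exact hρ
  obtain ⟨η, hη, hball⟩ := Metric.eventually_nhds_iff.1 (e1.and e2)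
  refine ⟨min 1 (δ / 4), max 1 (4 / η), lt_min one_pos (by positivity), min_le_left _ _,
    le_max_left _ _, ?_⟩
  intro β bb hβ hm hcl k
  have hβ1 : 1 ≤ β := (le_max_left _ _).trans hβ
  have hβ2 : 4 / η ≤ β := (le_max_right _ _).trans hβ
  have hβ0 : 0 < β := by linarith
  have hkey : ∀ r ∈ Ioo β (β + Real.pi),
      (bb 0 r, bb k r, (r / β) ^ (d - 1)) ∈ K ∧
      (ss 0 (r - β), ss k (r - β), (1 : ℝ)) ∈ K ∧
      |Ph al (bb 0 r, bb k r, (r / β) ^ (d - 1)) - Ph al (ss 0 (r - β), ss k (r - β), 1)| ≤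
        θ / Real.pi := by
    intro r hr
    have hρ : |r / β - 1| < η := by
      have h1 : r / β - 1 = (r - β) / β := by field_simp
      rw [h1, abs_of_nonneg (div_nonneg (by linarith [hr.1]) hβ0.le), div_lt_iff₀ hβ0]
      have h2 : r - β < 4 := by linarith [hr.2, Real.pi_lt_four]
      rw [div_le_iff₀ hη] at hβ2
      nlinarith
    obtain ⟨h1, h2⟩ := hball (by rw [Real.dist_eq]; exact hρ)
    have h3 : ∀ j, |bb j r - ss j (r - β)| ≤ δ / 2 ∧ |bb j r| ≤ 2 := by
      intro j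
      have h4 := hcl j r hr
      have h5 : sg d β j r = (r / β) ^ (-(((d : ℝ) - 1) / 2)) * ss j (r - β) := rfl
      have hs := ss_abs j (r - β)
      have h6 : |sg d β j r - ss j (r - β)| ≤ δ / 4 := by
        have h7 : sg d β j r - ss j (r - β) =
            ((r / β) ^ (-(((d : ℝ) - 1) / 2)) - 1) * ss j (r - β) := by
          rw [h5]
          ring
        rw [h7, abs_mul]
        calc _ ≤ δ / 4 * 1 := mul_le_mul h1.le hs (abs_nonneg _) (by positivity)
          _ = δ / 4 := mul_one _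
      have h8 : |sg d β j r| ≤ 1 := by
        rw [h5, abs_mul]
        have h10 : 1 ≤ r / β := by
          rw [le_div_iff₀ hβ0]
          linarith [hr.1]
        have h9 : |(r / β) ^ (-(((d : ℝ) - 1) / 2))| ≤ 1 := by
          rw [abs_of_nonneg (Real.rpow_nonneg (by linarith) _)]
          exact Real.rpow_le_one_of_one_le_of_nonpos h10 (by linarith)
        calc _ ≤ (1 : ℝ) * 1 := mul_le_mul h9 hs (abs_nonneg _) (by norm_num)
          _ = 1 := by norm_num
      refine ⟨?_, ?_⟩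
      · have h9 : bb j r - ss j (r - β) = (bb j r - sg d β j r) + (sg d β j r - ss j (r - β)) := by
          ring
        rw [h9]
        refine (abs_add_le _ _).trans ?_
        have := h4.trans (min_le_right _ _)
        linarith
      · have h9 : bb j r = (bb j r - sg d β j r) + sg d β j r := by ring
        rw [h9]
        refine (abs_add_le _ _).trans ?_
        have := h4.trans (min_le_left _ _)
        linarith
    have hm1 : (bb 0 r, bb k r, (r / β) ^ (d - 1)) ∈ K := by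
      refine ⟨abs_le.1 (h3 0).2, abs_le.1 (h3 k).2, ?_⟩
      have h4 := (abs_lt.1 (h2.trans_le (min_le_right _ _)))
      exact ⟨by linarith [h4.1], by linarith [h4.2]⟩
    have hm2 : (ss 0 (r - β), ss k (r - β), (1 : ℝ)) ∈ K := by
      refine ⟨abs_le.1 ((ss_abs 0 _).trans (by norm_num)),
        abs_le.1 ((ss_abs k _).trans (by norm_num)), ?_⟩
      exact ⟨by norm_num, by norm_num⟩
    refine ⟨hm1, hm2, ?_⟩
    have h5 := huc _ hm1 _ hm2 ?_
    · rw [Real.dist_eq] at h5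
      exact h5.le
    · rw [Prod.dist_eq, Prod.dist_eq, Real.dist_eq, Real.dist_eq, Real.dist_eq]
      refine max_lt ?_ (max_lt ?_ ?_)
      · exact lt_of_le_of_lt (h3 0).1 (by linarith)
      · exact lt_of_le_of_lt (h3 k).1 (by linarith)
      · exact h2.trans_le (min_le_left _ _)
  rw [← PP_shift al β k]
  have hfin : volume (Ioo β (β + Real.pi)) < ∞ := measure_Ioo_lt_top
  have hint1 : IntegrableOn (fun r => Ph al (bb 0 r, bb k r, (r / β) ^ (d - 1)))
      (Ioo β (β + Real.pi)) := by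
    refine Measure.integrableOn_of_bounded (M := C) hfin.ne ?_ ?_
    · refine ((Ph_cont hal).measurable.comp ?_).aestronglyMeasurable
      refine (hm 0).prodMk ((hm k).prodMk ?_)
      exact (measurable_id.div_const β).pow_const _
    · refine (ae_restrict_mem measurableSet_Ioo).mono fun r hr => ?_
      exact hC _ (hkey r hr).1
  have hint2 : IntegrableOn (fun r => Ph al (ss 0 (r - β), ss k (r - β), 1))
      (Ioo β (β + Real.pi)) := by
    refine Measure.integrableOn_of_bounded (M := C) hfin.ne ?_ ?_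
    · refine ((Ph_cont hal).comp ?_).aestronglyMeasurable
      exact ((ss_cont 0).comp (continuous_id.sub continuous_const)).prodMk
        (((ss_cont k).comp (continuous_id.sub continuous_const)).prodMk continuous_const)
    · refine (ae_restrict_mem measurableSet_Ioo).mono fun r hr => ?_
      exact hC _ (hkey r hr).2.1
  rw [← integral_sub hint1 hint2, ← Real.norm_eq_abs]
  refine (norm_setIntegral_le_of_norm_le_const (C := θ / Real.pi) hfin fun r hr => ?_).trans ?_
  · exact (hkey r hr).2.2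
  · rw [Measure.real, Real.volume_Ioo, add_sub_cancel_left, ENNReal.toReal_ofReal hpi.le,
      div_mul_cancel₀ _ hpi.ne']

theorem Ph_sq {al : ℝ} (hal : 0 < al) (x w : ℝ) :
    Ph al (x, x, w) = |x| ^ (al + 2) * w := by
  unfold Ph
  rw [Real.rpow_add_of_nonneg (abs_nonneg _) hal.le (by norm_num)]
  simp only [Real.rpow_ofNat, sq_abs]

theorem pkg (SIN : SinStmt) (MCR : McrStmt) (NUF : NufStmt) : PkgStmt := by
  intro d al hd hal
  obtain ⟨g, hg, hsin⟩ := SIN al hal
  obtain ⟨hmc, hmcr⟩ := MCR al hal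
  have hI := PP_pos hal
  have hmc2 : 0 < mc (al + 2) := by
    have h : 0 < (al + 2) * mc (al + 2) := by
      rw [hmcr]
      positivity
    exact (pos_iff_pos_of_mul_pos h).1 (by linarith)
  set I0 := PP al 0 with hI0
  have hPk : ∀ k : ℕ, 1 ≤ k → (1 + g) * (2 / (al + 2)) * I0 ≤ PP al k := by
    intro k hk
    rw [hI0, PP_zero hal, PP_eq]
    have h1 := hsin k hk
    have h2 : 0 < Real.sqrt (2 / Real.pi) ^ al * (2 / Real.pi) :=
      mul_pos (Real.rpow_pos_of_pos sq_pos _) (by positivity)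
    have h3 := mul_le_mul_of_nonneg_left h1 h2.le
    linarith
  -- the tolerance
  set θ : ℝ := min (I0 / 2) (g * I0 / (2 * (1 + (al + 2) / 2))) with hθd
  have hθ : 0 < θ := lt_min (by positivity) (by positivity)
  have hθ1 : θ ≤ I0 / 2 := min_le_left _ _
  have hθ2 : θ * (1 + (al + 2) / 2) ≤ g * I0 / 2 := by
    have h1 : θ ≤ g * I0 / (2 * (1 + (al + 2) / 2)) := min_le_right _ _
    rw [le_div_iff₀ (by positivity)] at h1
    linarith
  obtain ⟨ε1, β1, hε, hε1, hβ1, hcl⟩ := close hal d (by omega) hθ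
  set γ : ℝ := mc al / 2 * ((1 + g) * (2 / (al + 2)) * I0 - θ) with hγ
  set g0 : ℝ := mc (al + 2) * min (I0 / 2) (g * I0 / 2) with hg0
  refine ⟨g0, γ, ε1, β1, mul_pos hmc2 (lt_min (by positivity) (by positivity)), hε, hε1, hβ1, ?_⟩
  intro β bb hβ hm hbb
  have hβ0 : 0 < β := by linarith
  obtain ⟨-, -, -, -, hnu⟩ := NUF d β hβ0
  have hA : ∫ r, |bb 0 r| ^ (al + 2) ∂(nu d β) =
      ∫ r in Ioo β (β + Real.pi), Ph al (bb 0 r, bb 0 r, (r / β) ^ (d - 1)) := by
    rw [hnu]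
    refine integral_congr_ae (Eventually.of_forall fun r => ?_)
    show |bb 0 r| ^ (al + 2) * (r / β) ^ (d - 1) = Ph al (bb 0 r, bb 0 r, (r / β) ^ (d - 1))
    rw [Ph_sq hal]
  have hB : ∀ k, ∫ r, |bb 0 r| ^ al * bb k r ^ 2 ∂(nu d β) =
      ∫ r in Ioo β (β + Real.pi), Ph al (bb 0 r, bb k r, (r / β) ^ (d - 1)) := by
    intro k
    rw [hnu]
    rfl
  have hc := hcl β bb hβ hm hbb
  have hA' := abs_le.1 (hc 0)
  rw [← hA] at hA'
  set A := ∫ r, |bb 0 r| ^ (al + 2) ∂(nu d β)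
  obtain ⟨a1, a2⟩ := hA'
  have hm1 : min (I0 / 2) (g * I0 / 2) ≤ I0 / 2 := min_le_left _ _
  have hm2 : min (I0 / 2) (g * I0 / 2) ≤ g * I0 / 2 := min_le_right _ _
  refine ⟨?_, ?_, ?_⟩
  · rw [hg0, mul_comm A]
    exact mul_le_mul_of_nonneg_left (by linarith) hmc2.le
  · have e1 : (al + 1) * γ = mc (al + 2) * ((1 + g) * I0 - (al + 2) / 2 * θ) := by
      rw [hγ]
      have h1 : (al + 1) * (mc al / 2 * ((1 + g) * (2 / (al + 2)) * I0 - θ)) =
          ((al + 1) * mc al) * (1 / 2 * ((1 + g) * (2 / (al + 2)) * I0 - θ)) := by ring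
      rw [h1, ← hmcr]
      have h2 : al + 2 ≠ 0 := by linarith
      field_simp
    rw [e1, hg0, mul_comm A, ← mul_add]
    exact mul_le_mul_of_nonneg_left (by nlinarith) hmc2.le
  · intro k hk
    rw [hB k, hγ]
    have h1 := (abs_le.1 (hc k)).1
    have h2 := hPk k hk
    have h3 : mc al * ((1 + g) * (2 / (al + 2)) * I0 - θ) ≤
        mc al * ∫ r in Ioo β (β + Real.pi), Ph al (bb 0 r, bb k r, (r / β) ^ (d - 1)) :=
      mul_le_mul_of_nonneg_left (by linarith) hmc.le
    linarith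

end

end Pool.Agent.BEW.H62
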